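import Pool.Agent.Helper98.BT.Orb
import Pool.Agent.Helper27.BT.Lam

/-!
# BT, G5: the letters of the rows are different for most inputs
-/

set_option autoImplicit false
set_option linter.unusedSectionVars false

namespace Pool.Agent.Helper89.BT

open Finset Pool.Agent.Helper19.NF Pool.Agent.Helper74.NW Pool.Agent.Helper96.BT
open Pool.Agent.Helper74.NE (fine fine_apply)

section count

theorem union_bound {X τ : Type} [Finite X] [Fintype τ] {p q : X → Prop} {r : τ → X → Prop}
    (h : ∀ x, p x → q x ∨ ∃ t, r t x) :
    Nat.card {x // p x} ≤ Nat.card {x // q x} + ∑ t, Nat.card {x // r t x} := by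
  classical
  have := Fintype.ofFinite X
  simp only [Nat.card_eq_fintype_card, Fintype.card_subtype]
  have h1 : univ.filter p ⊆ univ.filter q ∪ univ.biUnion (fun t => univ.filter (r t)) := by
    intro x hx
    rw [mem_filter] at hx
    rcases h x hx.2 with h2 | ⟨t, h2⟩
    · exact mem_union_left _ (mem_filter.mpr ⟨mem_univ _, h2⟩)
    · exact mem_union_right _ (mem_biUnion.mpr ⟨t, mem_univ _, mem_filter.mpr ⟨mem_univ _, h2⟩⟩)
  exact (card_le_card h1).trans ((card_union_le _ _).trans (Nat.add_le_add_left card_biUnion_le _))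

/-- A surjective homomorphism has fibres of the same size. -/
theorem card_fib {X B : Type} [AddCommGroup X] [AddCommGroup B] [Fintype X] [Fintype B] (φ : X →+ B)
    (hφ : Function.Surjective φ) (b : B) : (Nat.card {x // φ x = b} : ℝ) = Nat.card X / Fintype.card B := by
  classical
  have h1 : ∀ b', (univ.filter (fun x => φ x = b')).card = (univ.filter (fun x => φ x = b)).card := fun b' =>
    AddMonoidHom.card_fiber_eq_of_mem_range φ (hφ b') (hφ b)
  have h2 : Fintype.card X = Fintype.card B * (univ.filter (fun x => φ x = b)).card := by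
    rw [← Finset.card_univ, Finset.card_eq_sum_card_fiberwise (f := φ) (t := univ) (fun x _ => Finset.mem_univ _)]
    rw [Finset.sum_congr rfl fun b' _ => h1 b', Finset.sum_const, Finset.card_univ, smul_eq_mul]
  have hB : (0 : ℝ) < Fintype.card B := by exact_mod_cast Fintype.card_pos_iff.mpr ⟨(0 : B)⟩
  rw [eq_div_iff hB.ne', Nat.card_eq_fintype_card, Nat.card_eq_fintype_card, Fintype.card_subtype, h2]
  push_cast
  ring

end count

variable {n D m : ℕ} [NeZero m] {F B W : Type} [Field F] [Fintype F] [AddCommGroup B] [AddCommGroup W]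
  [Module F W] [Fintype W] [Fintype B] (enc : W →+ (Fin D × Fin m → B))

/-- The change of a letter as a homomorphism. -/
noncomputable def lamHom (F : Type) [Field F] [Module F W] (g : Fin D → Equiv.Perm (Fin n)) (u : Fin n × Fin m) :
    Ch n m F W →+ B :=
  AddMonoidHom.mk' (fun x => lam enc g x u) fun x y => Pool.Agent.Helper27.BT.lam_add enc g x y u

theorem lamHom_apply (g : Fin D → Equiv.Perm (Fin n)) (u : Fin n × Fin m) (x : Ch n m F W) :
    lamHom enc F g u x = lam enc g x u := rfl

open Classical in
theorem cont_single (F : Type) [Field F] [Module F W] (w : W) : cont (fun l => if l = w then (1 : F) else 0) = w := by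
  unfold cont
  rw [Finset.sum_eq_single w]
  · show (if w = w then (1 : F) else 0) • w = w
    rw [if_pos rfl, one_smul]
  · intro l _ hl
    show (if l = w then (1 : F) else 0) • l = 0
    rw [if_neg hl, zero_smul]
  · intro h
    exact absurd (Finset.mem_univ w) h

open Classical in
theorem card_pos_le (g : Fin D → Equiv.Perm (Fin n)) (u p : Fin n × Fin m) :
    (univ.filter (fun c : Fin D × Fin m => fine g c u = p)).card ≤ D := by
  calc (univ.filter (fun c : Fin D × Fin m => fine g c u = p)).card
      ≤ (univ : Finset (Fin D)).card := by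
        refine Finset.card_le_card_of_injOn (fun c => c.1) (fun _ _ => Finset.mem_coe.2 (Finset.mem_univ _)) ?_
        intro c hc c' hc' h
        rw [Finset.mem_coe, Finset.mem_filter] at hc hc'
        have h1 := congrArg Prod.snd (hc.2.trans hc'.2.symm)
        rw [fine_apply, fine_apply] at h1
        exact Prod.ext h (add_left_cancel h1)
    _ = D := by rw [Finset.card_univ, Fintype.card_fin]

/-- A letter can be moved arbitrarily, while another one is fixed. -/
theorem exists_lam (F : Type) [Field F] [Module F W] (hE : Mds enc (2 * D)) (hD : 0 < D)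
    (g : Fin D → Equiv.Perm (Fin n)) (u u' : Fin n × Fin m) (y : B) :
    ∃ x : Ch n m F W, lam enc g x u = y ∧ (u' ≠ u → lam enc g x u' = 0) := by
  classical
  let c0 : Fin D × Fin m := (⟨0, hD⟩, 0)
  obtain ⟨w, hw⟩ := hE ((univ.filter (fun c : Fin D × Fin m => fine g c u = fine g c0 u)) ∪
    (univ.filter (fun c : Fin D × Fin m => fine g c u' = fine g c0 u)))
    ((Finset.card_union_le _ _).trans (by
      have h1 := card_pos_le g u (fine g c0 u)
      have h2 := card_pos_le g u' (fine g c0 u)
      omega)) (fun c => if c = c0 then y else 0)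
  let x : Ch n m F W := fun p l => if p = fine g c0 u ∧ l = w then 1 else 0
  have hx : ∀ p, cont (x p) = if p = fine g c0 u then w else 0 := by
    intro p
    by_cases hp : p = fine g c0 u
    · rw [if_pos hp]
      have : x p = fun l => if l = w then (1 : F) else 0 := by
        funext l
        show (if p = fine g c0 u ∧ l = w then (1 : F) else 0) = _
        simp only [hp, true_and]
      rw [this, cont_single]
    · rw [if_neg hp]
      have : x p = 0 := by
        funext l
        show (if p = fine g c0 u ∧ l = w then (1 : F) else 0) = _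
        rw [if_neg fun h => hp h.1, Pi.zero_apply]
      rw [this, Pool.Agent.Helper98.BT.cont_zero]
  have hlam : ∀ v, lam enc g x v = ∑ c, if fine g c v = fine g c0 u then enc w c else 0 := by
    intro v
    unfold lam
    refine Finset.sum_congr rfl fun c _ => ?_
    rw [hx]
    split_ifs
    · rfl
    · rw [map_zero, Pi.zero_apply]
  refine ⟨x, ?_, fun hu => ?_⟩
  · rw [hlam, Finset.sum_eq_single c0]
    · rw [if_pos rfl, hw c0 (Finset.mem_union_left _ (Finset.mem_filter.2 ⟨Finset.mem_univ _, rfl⟩)), if_pos rfl]
    · intro c _ hc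
      split_ifs with h
      · rw [hw c (Finset.mem_union_left _ (Finset.mem_filter.2 ⟨Finset.mem_univ _, h⟩)), if_neg hc]
      · rfl
    · intro h
      exact absurd (Finset.mem_univ _) h
  · rw [hlam]
    refine Finset.sum_eq_zero fun c _ => ?_
    split_ifs with h
    · rw [hw c (Finset.mem_union_right _ (Finset.mem_filter.2 ⟨Finset.mem_univ _, h⟩))]
      rw [if_neg]
      rintro rfl
      exact hu ((fine g _).injective h)
    · rfl

/-- The event that an affine function of the change has a given value. -/
theorem event_le (g : Fin D → Equiv.Perm (Fin n)) (x0 : Fin n × Fin m → B) (i : ℕ)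
    (Q : (B × W → F) → Prop) (hQ : ∀ I, Q I → CF (fine g) x0 i (tab enc I)) (φ : Ch n m F W →+ B)
    (hφ : Function.Surjective φ)
    (h : ∀ I : B × W → F, CF (fine g) x0 i (tab enc I) → ∃ b, ∀ x : Ch n m F W, Q (act enc g x0 i I x) → φ x = b) :
    (Nat.card {I // Q I} : ℝ) ≤ 1 / Fintype.card B * Nat.card (B × W → F) := by
  have : Finite (Ch n m F W) := inferInstanceAs (Finite (Fin n × Fin m → W → F))
  have : Fintype (Ch n m F W) := Fintype.ofFinite _
  have h1 := Pool.Agent.Helper98.BT.average2 enc g x0 i Q (fun _ => False) hQ (fun _ h => h.elim) 1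
    (1 / Fintype.card B) (by positivity) (fun I hI => by
      obtain ⟨b, hb⟩ := h I hI
      have h2 : (Nat.card {x : Ch n m F W // Q (act enc g x0 i I x)} : ℝ) ≤ Nat.card {x // φ x = b} := by
        exact_mod_cast Nat.card_le_card_of_injective
          (fun x : {x : Ch n m F W // Q (act enc g x0 i I x)} => (⟨x.1, hb x.1 x.2⟩ : {x // φ x = b}))
          (fun x x' hxx => Subtype.ext (congrArg (fun z => z.1) hxx))
      rw [card_fib φ hφ b] at h2
      refine h2.trans (le_of_eq ?_)
      have h3 : Nat.card {x : Ch n m F W // False} = 0 := by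
        rw [Nat.card_eq_zero]
        exact Or.inl ⟨fun x => x.2⟩
      rw [h3]
      push_cast
      ring)
  refine h1.trans (le_of_eq ?_)
  have h3 : Nat.card {x : B × W → F // False} = 0 := by
    rw [Nat.card_eq_zero]
    exact Or.inl ⟨fun x => x.2⟩
  rw [h3]
  push_cast
  ring

/-- G5. -/
theorem card_not_CF (hE : Mds enc (2 * D)) (hD : 0 < D) (g : Fin D → Equiv.Perm (Fin n)) (x0 : Fin n × Fin m → B)
    (hx0 : Function.Injective x0) (R : ℕ) :
    (Nat.card {I : B × W → F // ¬ CF (fine g) x0 R (tab enc I)} : ℝ) ≤
      ((R + 1) * (n * m)) ^ 2 / Fintype.card B * Nat.card (B × W → F) := by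
  classical
  have hB : (0 : ℝ) < Fintype.card B := by exact_mod_cast Fintype.card_pos_iff.mpr ⟨(0 : B)⟩
  induction R with
  | zero =>
    have h1 : Nat.card {I : B × W → F // ¬ CF (fine g) x0 0 (tab enc I)} = 0 := by
      rw [Nat.card_eq_zero]
      refine Or.inl ⟨fun x => x.2 ?_⟩
      intro j j' v v' hj hj' e
      have hj0 : j = 0 := Nat.le_zero.1 hj
      have hj0' : j' = 0 := Nat.le_zero.1 hj'
      subst hj0
      subst hj0'
      exact ⟨rfl, hx0 e⟩
    rw [h1]
    push_cast
    positivity
  | succ i ih =>
    have h1 := union_bound (X := B × W → F) (p := fun I => ¬ CF (fine g) x0 (i + 1) (tab enc I))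
      (q := fun I => ¬ CF (fine g) x0 i (tab enc I))
      (r := fun t : (Fin (i + 1) × (Fin n × Fin m) × (Fin n × Fin m)) ⊕ ((Fin n × Fin m) × (Fin n × Fin m)) =>
        fun I => CF (fine g) x0 i (tab enc I) ∧
        match t with
        | Sum.inl (j, u, v) => val (fine g) x0 (tab enc I) (i + 1) u = val (fine g) x0 (tab enc I) j v
        | Sum.inr (u, v) => u ≠ v ∧ val (fine g) x0 (tab enc I) (i + 1) u = val (fine g) x0 (tab enc I) (i + 1) v)
      (fun I hI => by
        by_cases hc : CF (fine g) x0 i (tab enc I)
        · refine Or.inr ?_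
          by_contra hne
          push Not at hne
          refine hI ?_
          intro j j' v v' hj hj' e
          rcases Nat.lt_or_ge i j with hji | hji
          · have hj1 : j = i + 1 := by omega
            subst hj1
            rcases Nat.lt_or_ge i j' with hji' | hji'
            · have hj1' : j' = i + 1 := by omega
              subst hj1'
              refine ⟨rfl, ?_⟩
              by_contra hvv
              exact hne (Sum.inr (v, v')) hc ⟨hvv, e⟩
            · exact absurd e (hne (Sum.inl (⟨j', by omega⟩, v, v')) hc)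
          · rcases Nat.lt_or_ge i j' with hji' | hji'
            · have hj1' : j' = i + 1 := by omega
              subst hj1'
              exact absurd e.symm (hne (Sum.inl (⟨j, by omega⟩, v', v)) hc)
            · exact hc j j' v v' hji hji' e
        · exact Or.inl hc)
    have h2 : ∀ t : (Fin (i + 1) × (Fin n × Fin m) × (Fin n × Fin m)) ⊕ ((Fin n × Fin m) × (Fin n × Fin m)),
        (Nat.card {I : B × W → F // CF (fine g) x0 i (tab enc I) ∧
        match t with
        | Sum.inl (j, u, v) => val (fine g) x0 (tab enc I) (i + 1) u = val (fine g) x0 (tab enc I) j v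
        | Sum.inr (u, v) => u ≠ v ∧ val (fine g) x0 (tab enc I) (i + 1) u =
            val (fine g) x0 (tab enc I) (i + 1) v} : ℝ) ≤ 1 / Fintype.card B * Nat.card (B × W → F) := by
      rintro (⟨j, u, v⟩ | ⟨u, v⟩)
      · refine event_le enc g x0 i _ (fun I hI => hI.1) (lamHom enc F g u) (fun y => ?_) (fun I hI => ?_)
        · obtain ⟨x, hx, -⟩ := exists_lam enc F hE hD g u u y
          exact ⟨x, hx⟩
        · refine ⟨val (fine g) x0 (tab enc I) j v - val (fine g) x0 (tab enc I) (i + 1) u, fun x hx => ?_⟩
          have h3 := hx.2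
          dsimp only at h3
          rw [Pool.Agent.Helper98.BT.val_act_succ hI, Pool.Agent.Helper98.BT.val_act hI x (Nat.lt_succ_iff.1 j.2)] at h3
          rw [lamHom_apply, ← h3]
          abel
      · by_cases huv : u = v
        · have h4 : Nat.card {I : B × W → F // CF (fine g) x0 i (tab enc I) ∧
              match (Sum.inr (u, v) : (Fin (i + 1) × (Fin n × Fin m) × (Fin n × Fin m)) ⊕
                ((Fin n × Fin m) × (Fin n × Fin m))) with
              | Sum.inl (j, u, v) => val (fine g) x0 (tab enc I) (i + 1) u = val (fine g) x0 (tab enc I) j v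
              | Sum.inr (u, v) => u ≠ v ∧ val (fine g) x0 (tab enc I) (i + 1) u =
                val (fine g) x0 (tab enc I) (i + 1) v} = 0 := by
            rw [Nat.card_eq_zero]
            exact Or.inl ⟨fun x => x.2.2.1 huv⟩
          rw [h4]
          push_cast
          positivity
        · refine event_le enc g x0 i _ (fun I hI => hI.1) (lamHom enc F g u - lamHom enc F g v) (fun y => ?_)
            (fun I hI => ?_)
          · obtain ⟨x, hx, hx'⟩ := exists_lam enc F hE hD g u v y
            refine ⟨x, ?_⟩
            rw [AddMonoidHom.sub_apply, lamHom_apply, lamHom_apply, hx, hx' (Ne.symm huv), sub_zero]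
          · refine ⟨val (fine g) x0 (tab enc I) (i + 1) v - val (fine g) x0 (tab enc I) (i + 1) u, fun x hx => ?_⟩
            have h3 := hx.2.2
            rw [Pool.Agent.Helper98.BT.val_act_succ hI, Pool.Agent.Helper98.BT.val_act_succ hI] at h3
            rw [AddMonoidHom.sub_apply, lamHom_apply, lamHom_apply]
            rw [sub_eq_sub_iff_add_eq_add, add_comm, h3, add_comm]
    have h3 : (Nat.card {I : B × W → F // ¬ CF (fine g) x0 (i + 1) (tab enc I)} : ℝ) ≤
        Nat.card {I : B × W → F // ¬ CF (fine g) x0 i (tab enc I)} +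
          ((i + 1) * ((n * m) * (n * m)) + (n * m) * (n * m)) * (1 / Fintype.card B * Nat.card (B × W → F)) := by
      refine (Nat.cast_le.2 h1).trans ?_
      push_cast
      refine add_le_add le_rfl ?_
      refine (Finset.sum_le_sum fun t _ => h2 t).trans (le_of_eq ?_)
      rw [Finset.sum_const, Finset.card_univ, nsmul_eq_mul]
      simp only [Fintype.card_sum, Fintype.card_prod, Fintype.card_fin]
      push_cast
      ring
    refine h3.trans ((add_le_add ih le_rfl).trans ?_)
    have hN : (0 : ℝ) ≤ Nat.card (B × W → F) := Nat.cast_nonneg _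
    have h5 : ((i : ℝ) + 1) ^ 2 + (i + 1) + 1 ≤ (i + 1 + 1) ^ 2 := by
      have : (0 : ℝ) ≤ i := Nat.cast_nonneg _
      nlinarith
    have h6 : (0 : ℝ) ≤ ((n : ℝ) * m) ^ 2 * (1 / Fintype.card B * Nat.card (B × W → F)) := by positivity
    push_cast
    calc (((i : ℝ) + 1) * (n * m)) ^ 2 / Fintype.card B * Nat.card (B × W → F) +
          ((i + 1) * ((n * m) * (n * m)) + (n * m) * (n * m)) * (1 / Fintype.card B * Nat.card (B × W → F))
        = (((i : ℝ) + 1) ^ 2 + (i + 1) + 1) * (((n : ℝ) * m) ^ 2 * (1 / Fintype.card B * Nat.card (B × W → F))) := by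
          ring
      _ ≤ (i + 1 + 1) ^ 2 * (((n : ℝ) * m) ^ 2 * (1 / Fintype.card B * Nat.card (B × W → F))) :=
          mul_le_mul_of_nonneg_right h5 h6
      _ = _ := by ring

end Pool.Agent.Helper89.BT
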